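import Pool.Agent.H83.AT.Targets

/-!
Constant sheaves: stalks and universal property (module KK of at_modules).
-/

open CategoryTheory CategoryTheory.Limits TopologicalSpace Topology Set Opposite

namespace Pool.Agent.H59.AT.KK

open Pool.Agent.H83.AT Pool.Agent.H96.AL

variable {F : Type} [Field F]

/-- the constant presheaf -/
noncomputable abbrev cP (X : TopCat.{0}) (V : ModuleCat.{0} F) :
    TopCat.Presheaf (ModuleCat.{0} F) X := (Functor.const (Opens X)ᵒᵖ).obj V

lemma kc_eq (X : TopCat.{0}) (V : ModuleCat.{0} F) (v : V) :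
    kc F X V v = ((toSheafify (Opens.grothendieckTopology X) (cP X V)).app
      (op (⊤ : Opens X))).hom v := by
  have h : (constantSheafAdj (Opens.grothendieckTopology X) (ModuleCat.{0} F)
    (isTerminalTop : IsTerminal (⊤ : Opens X))).unit.app V =
      (toSheafify (Opens.grothendieckTopology X) (cP X V)).app (op (⊤ : Opens X)) := by
    rw [constantSheafAdj, Adjunction.comp_unit_app]
    simp
  exact congrArg (fun k => k.hom v) h

lemma germ_bij (X : TopCat.{0}) (V : ModuleCat.{0} F) (x : X) (hx : x ∈ (⊤ : Opens X)) :
    Function.Bijective (fun v : V => (TopCat.Presheaf.germ (cP X V) ⊤ x hx).hom v) := by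
  constructor
  · intro v v' h
    obtain ⟨W, m, i, j, e⟩ := TopCat.Presheaf.germ_eq (cP X V) x hx hx v v' h
    exact e
  · intro g
    obtain ⟨U, m, s, h⟩ := TopCat.Presheaf.exists_germ_eq (cP X V) g
    refine ⟨s, ?_⟩
    have := TopCat.Presheaf.germ_res_apply (cP X V) (homOfLE (le_top : U ≤ ⊤)) x m s
    exact this.symm.trans h

theorem kk : T_KK := by
  intro F _ X V
  constructor
  · intro x hx
    have h1 := TopCat.Presheaf.stalkFunctor_map_unit_toSheafify_isIso x (ModuleCat.{0} F)
      (cP X V)
    have h2 := (ConcreteCategory.isIso_iff_bijective _).1 h1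
    have h3 := h2.comp (germ_bij X V x hx)
    have h4 : (fun v : V => gm (constSh F X V) hx (kc F X V v)) =
        (fun g => ((TopCat.Presheaf.stalkFunctor (ModuleCat.{0} F) x).map
          (toSheafify (Opens.grothendieckTopology X) (cP X V))) g) ∘
        (fun v : V => (TopCat.Presheaf.germ (cP X V) ⊤ x hx).hom v) := by
      funext v
      rw [kc_eq]
      exact (TopCat.Presheaf.stalkFunctor_map_germ_apply ⊤ x hx
        (toSheafify (Opens.grothendieckTopology X) (cP X V)) v).symm
    rw [h4]
    exact h3
  · intro A l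
    refine ⟨((constantSheafAdj (Opens.grothendieckTopology X) (ModuleCat.{0} F)
      (isTerminalTop : IsTerminal (⊤ : Opens X))).homEquiv V A).symm (ModuleCat.ofHom l), ?_⟩
    intro v
    have h : ((constantSheafAdj (Opens.grothendieckTopology X) (ModuleCat.{0} F)
      (isTerminalTop : IsTerminal (⊤ : Opens X))).homEquiv V A)
        (((constantSheafAdj (Opens.grothendieckTopology X) (ModuleCat.{0} F)
      (isTerminalTop : IsTerminal (⊤ : Opens X))).homEquiv V A).symm (ModuleCat.ofHom l)) =
        ModuleCat.ofHom l := Equiv.apply_symm_apply _ _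
    rw [Adjunction.homEquiv_unit] at h
    exact congrArg (fun k => k.hom v) h

end Pool.Agent.H59.AT.KK
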