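import Pool.Agent.H83.AT.Targets

/-!
Direct image of a short exact sequence along `W × [0,1] → W` (module VM of at_modules).
-/

open CategoryTheory CategoryTheory.Limits TopologicalSpace Topology Set Opposite

namespace Pool.Agent.H59.AT.VM

open Pool.Agent.H83.AT Pool.Agent.H96.AL

variable {F : Type} [Field F]

/-- lifting of sections along a short exact sequence -/
lemma lift_sec {X : TopCat.{0}} {A B C : Sh F X} (f : A ⟶ B) (g : B ⟶ C)
    (hi : ∀ x, Function.Injective (sm f x))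
    (he : ∀ x (s : Stk B x), sm g x s = 0 → ∃ t : Stk A x, sm f x t = s)
    (V : Opens X) (b : Sec B V) (hb : ap g V b = 0) : ∃ a : Sec A V, ap f V a = b := by
  have h1 : ∀ y : V, ∃ (O : Opens X) (_ : y.1 ∈ O) (_ : O ≤ V) (a : Sec A O),
      ∀ (z : X) (hz : z ∈ O) (hz' : z ∈ V), sm f z (gm A hz a) = gm B hz' b := by
    intro y
    have h2 : sm g y.1 (gm B y.2 b) = 0 := by
      rw [← gm_ap, hb, map_zero]
    obtain ⟨t, ht⟩ := he y.1 _ h2
    obtain ⟨O, hO, a, ha⟩ := exists_gm A t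
    have h3 : gm B hO (ap f O a) = gm B y.2 b := by
      rw [gm_ap, ha, ht]
    obtain ⟨P, hP, k1, k2, e⟩ := gm_eq B hO y.2 _ _ h3
    refine ⟨P, hP, k2, rs A k1 a, ?_⟩
    intro z hz hz'
    rw [← gm_ap, ← rs_ap, e, gm_rs]
  choose O hO hOV a ha using h1
  obtain ⟨t, ht⟩ := glue A O a V hOV
    (by
      intro y hy
      exact Opens.mem_iSup.2 ⟨⟨y, hy⟩, hO ⟨y, hy⟩⟩)
    (by
      intro i j x hi' hj'
      apply hi x
      rw [ha i x hi' (hOV i hi'), ha j x hj' (hOV j hj')])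
  refine ⟨t, ?_⟩
  apply sec_ext B
  intro x hx
  rw [gm_ap]
  have h4 := ht ⟨x, hx⟩ x (hO ⟨x, hx⟩)
  have h5 := ha ⟨x, hx⟩ x (hO ⟨x, hx⟩) hx
  exact (congrArg (sm f x) h4).trans h5

/-- a morphism that is injective on stalks is injective on sections -/
lemma ap_inj {X : TopCat.{0}} {A B : Sh F X} (f : A ⟶ B)
    (hi : ∀ x, Function.Injective (sm f x)) (V : Opens X) (a : Sec A V) (h : ap f V a = 0) :
    a = 0 := by
  apply sec_ext A
  intro x hx
  apply hi x
  rw [← gm_ap, h, map_zero, map_zero, map_zero]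

theorem vm (hVL : T_VL) : T_VM := by
  intro F _ W A B C f g w hS hA w'
  obtain ⟨h1, h2, h3⟩ := (shortExact_iff f g w).1 hS
  refine (shortExact_iff _ _ w').2 ⟨?_, ?_, ?_⟩
  · intro x
    rw [injective_iff_map_eq_zero]
    intro s hs
    obtain ⟨V, hx, a, rfl⟩ := exists_gm _ s
    rw [← gm_ap] at hs
    have h4 : gm ((pf F (pr W)).obj B) hx (ap ((pf F (pr W)).map f) V a) =
        gm ((pf F (pr W)).obj B) hx (0 : Sec ((pf F (pr W)).obj B) V) := by
      rw [hs, map_zero]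
    obtain ⟨P, hP, k1, k2, e⟩ := gm_eq _ hx hx _ _ h4
    rw [rs_ap, map_zero] at e
    have h5 : rs ((pf F (pr W)).obj A) k1 a = 0 :=
      ap_inj f h1 (pre (pr W) P) (rs ((pf F (pr W)).obj A) k1 a) e
    rw [← gm_rs _ k1 hP, h5, map_zero]
  · intro x s
    obtain ⟨V, hx, c, rfl⟩ := exists_gm _ s
    obtain ⟨N', hN', h, b, hb⟩ := hVL F W A B C f g w hS hA V x hx c
    refine ⟨gm ((pf F (pr W)).obj B) hN' b, ?_⟩
    rw [← gm_ap, ← gm_rs ((pf F (pr W)).obj C) h hN' c]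
    exact congrArg (gm ((pf F (pr W)).obj C) hN') hb
  · intro x s hs
    obtain ⟨V, hx, b, rfl⟩ := exists_gm _ s
    rw [← gm_ap] at hs
    have h4 : gm ((pf F (pr W)).obj C) hx (ap ((pf F (pr W)).map g) V b) =
        gm ((pf F (pr W)).obj C) hx (0 : Sec ((pf F (pr W)).obj C) V) := by
      rw [hs, map_zero]
    obtain ⟨P, hP, k1, k2, e⟩ := gm_eq _ hx hx _ _ h4
    rw [rs_ap, map_zero] at e
    obtain ⟨a, ha⟩ := lift_sec f g h1 h3 (pre (pr W) P) (rs ((pf F (pr W)).obj B) k1 b) e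
    refine ⟨gm ((pf F (pr W)).obj A) hP a, ?_⟩
    rw [← gm_ap, ← gm_rs ((pf F (pr W)).obj B) k1 hP b]
    exact congrArg (gm ((pf F (pr W)).obj B) hP) ha

end Pool.Agent.H59.AT.VM
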